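import Pool.Agent.Y136.SG.Game

/-!
# MP_b9e574_gt: the games `G_1(⟨O_{f(n)}⟩, Γ)` for all sequences of orders `f`

Sequences are indexed by `n = 0, 1, 2, …`; the sequence of the orders of the problem is
`f n = n + 1`. An order is a natural number or `⊤ = ∞`, and the `∞`-covers are the `ω`-covers.
-/

namespace Pool.Agent.Results.MP_b9e574_gt.AllOrders

open Set Filter Pool.Agent.Y136.SG

universe u

theorem s1_iff_S1G {X : Type u} [Infinite X] {L : Set (Set X)} {f : ℕ → ℕ∞} :
    S1 L f ↔ S1G L fun n => max (f n) 1 := by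
  unfold S1 S1G
  simp only [isKCover_iff_good]

theorem s1_standard {X : Type u} [Infinite X] {L : Set (Set X)} :
    S1 L (fun n => ((n + 1 : ℕ) : ℕ∞)) ↔ S1G L fun n => (n : ℕ∞) + 1 := by
  rw [s1_iff_S1G]
  have : (fun n : ℕ => max ((n + 1 : ℕ) : ℕ∞) 1) = fun n : ℕ => (n : ℕ∞) + 1 := by
    funext n
    rw [max_eq_left (by exact_mod_cast Nat.succ_le_succ (Nat.zero_le n))]
    push_cast
    rfl
  rw [this]

theorem games {X : Type u} {L : Set (Set X)} (hL : IsSetLattice L) (f : ℕ → ℕ∞) :
    S1 L f ↔ ¬ ∃ σ : List (Set X) → Set (Set X), IsWinning L f σ := by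
  classical
  constructor
  · rintro hX ⟨σ, hσ, hwin⟩
    rcases isEmpty_or_nonempty X with hE | hN
    · obtain ⟨U, hU, _⟩ := hX (fun _ => ∅) (fun n => ⟨fun U hU => absurd hU (notMem_empty U),
        by ext x; exact (IsEmpty.false x).elim, fun m hm _ F hF => by
          have : F = ∅ := Finset.eq_empty_of_isEmpty F
          rw [this, Finset.card_empty] at hF
          omega⟩)
      exact notMem_empty _ (hU 0)
    rcases finite_or_infinite X with hF | hI
    · have hleg : ∀ n, ∃ h, Legal σ h ∧ h.length = n := by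
        intro n
        induction n with
        | zero => exact ⟨[], trivial, rfl⟩
        | succ n ih =>
          obtain ⟨h, h1, h2⟩ := ih
          obtain ⟨x⟩ := hN
          have hx : x ∈ ⋃₀ σ h := by rw [(hσ h h1).2.1]; exact mem_univ x
          obtain ⟨U, hU, _⟩ := hx
          exact ⟨U :: h, ⟨h1, hU⟩, by simp [h2]⟩
      choose hh hh1 hh2 using hleg
      obtain ⟨U, hU, hUg⟩ := hX (fun n => σ (hh n)) fun n => by
        have := hσ (hh n) (hh1 n)
        rwa [hh2 n] at this
      have h1 : ∀ᶠ n in atTop, ∀ x : X, x ∈ U n := by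
        rw [Filter.eventually_all]
        exact hUg
      obtain ⟨n, hn⟩ := h1.exists
      exact ((hσ (hh n) (hh1 n)).1 (U n) (hU n)).2 (eq_univ_of_forall hn)
    · obtain ⟨U, hU1, hU2⟩ := exists_win hL (s1_iff_S1G.mp hX)
        (σ := σ) (fun h hh => isKCover_iff_good.mp (hσ h hh))
      exact hwin U hU1 hU2
  · intro hno
    by_contra hX
    unfold S1 at hX
    push Not at hX
    obtain ⟨𝒰, h1, h2⟩ := hX
    refine hno ⟨fun h => 𝒰 h.length, fun h _ => h1 h.length, fun U hU => ?_⟩
    refine h2 U fun n => ?_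
    have := hU n
    simpa [hist_length] using this

/-- (1) Let `L` be a lattice of subsets of a set `X` (for instance the open sets of any topological
space, the Borel sets, the clopen sets) and let `f` be ANY sequence of orders in
`{0, 1, 2, …, ∞}`. Then `S_1(⟨O_{f(n)}⟩, Γ)` holds for the covers by members of `L` if and only if
ONE has no winning strategy in the game `G_1(⟨O_{f(n)}⟩, Γ)`.

(2) The question of the problem: for every topological space `X`, `S_1(⟨O_n⟩, Γ)` holds if and only
if ONE has no winning strategy in `G_1(⟨O_n⟩, Γ)`.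

(3) For infinite `X` there are only two such properties besides the trivial ones: if `f` tends to
infinity and is finite infinitely often, then the property `S_1(⟨O_{f(n)}⟩, Γ)` does not depend on
`f`; if `f n = ∞` for almost all `n`, it is the property `S_1(Ω, Γ)`; and if `f` does not tend to
infinity, then it fails as soon as the complements of the points belong to `L` (for open sets: as
soon as `X` is a `T_1`-space), so that ONE has a winning strategy. -/
theorem result :
    (∀ (X : Type u) (L : Set (Set X)), IsSetLattice L → ∀ f : ℕ → ℕ∞,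
      (S1 L f ↔ ¬ ∃ σ : List (Set X) → Set (Set X), IsWinning L f σ)) ∧
    (∀ (X : Type u) [TopologicalSpace X],
      S1 {U : Set X | IsOpen U} (fun n => ((n + 1 : ℕ) : ℕ∞)) ↔
        ¬ ∃ σ : List (Set X) → Set (Set X),
          IsWinning {U : Set X | IsOpen U} (fun n => ((n + 1 : ℕ) : ℕ∞)) σ) ∧
    (∀ (X : Type u) (L : Set (Set X)), Infinite X → IsSetLattice L → ∀ f : ℕ → ℕ∞,
      ((∀ k : ℕ, ∀ᶠ n in atTop, (k : ℕ∞) ≤ f n) → (∃ᶠ n in atTop, f n ≠ ⊤) →
        (S1 L f ↔ S1 L (fun n => ((n + 1 : ℕ) : ℕ∞)))) ∧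
      ((∀ᶠ n in atTop, f n = ⊤) → (S1 L f ↔ S1 L (fun _ => ⊤))) ∧
      ((∀ x : X, ({x}ᶜ : Set X) ∈ L) → (∃ k : ℕ, ∃ᶠ n in atTop, f n ≤ k) →
        ∃ σ : List (Set X) → Set (Set X), IsWinning L f σ)) := by
  refine ⟨fun X L hL f => games hL f, fun X _ => games (isSetLattice_open X) _,
    fun X L _ hL f => ⟨fun hf hf2 => ?_, fun hf => ?_, fun hsep hf => ?_⟩⟩
  · rw [s1_standard, s1_iff_S1G]
    constructor
    · refine S1G.to_standard hL (hf2.mono fun n hn => ?_)
      exact (max_lt (lt_top_iff_ne_top.mpr hn) (by simp)).ne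
    · refine S1G.of_tendsto hL (fun n => le_max_right _ _) fun k => (hf k).mono fun n hn => ?_
      exact hn.trans (le_max_left _ _)
  · rw [s1_iff_S1G, s1_iff_S1G]
    have h1 : (fun _ : ℕ => max (⊤ : ℕ∞) 1) = fun _ => ⊤ := by
      funext n
      simp
    rw [h1]
    exact S1G.iff_omega hL (hf.mono fun n hn => by simp [hn])
  · by_contra hcon
    have h1 := (games hL f).mpr hcon
    rw [s1_iff_S1G] at h1
    obtain ⟨k, hk⟩ := hf
    refine not_S1G (k := k + 1) hsep (hk.mono fun n hn => ?_) h1
    refine max_le (hn.trans ?_) ?_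
    · exact_mod_cast Nat.le_succ k
    · exact_mod_cast Nat.succ_le_succ (Nat.zero_le k)

end Pool.Agent.Results.MP_b9e574_gt.AllOrders
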